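import Mathlib

set_option autoImplicit false

open Filter Topology

namespace Pool.Agent.Results.MP_b13893_an.RadiusBound

/-- The field of formal Laurent series over `ℚ` in the variable `q`. -/
abbrev Ser := LaurentSeries ℚ

/-- The variable `q`. -/
noncomputable def q : Ser := HahnSeries.single 1 1

/-- `[n]_q = 1 + q + ... + q ^ (n - 1)`. -/
noncomputable def qInt (n : ℕ) : Ser := ∑ i ∈ Finset.range n, q ^ i

/-- The truncated negative continued fraction `[[c 0, c 1, ..., c N]]`. -/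
noncomputable def cf : (ℕ → ℕ) → ℕ → ℝ
  | c, 0 => (c 0 : ℝ)
  | c, N + 1 => (c 0 : ℝ) - 1 / cf (fun j => c (j + 1)) N

/-- The `q`-deformed truncated negative continued fraction `[[c 0, c 1, ..., c N]]_q`. -/
noncomputable def qcf : (ℕ → ℕ) → ℕ → Ser
  | c, 0 => qInt (c 0)
  | c, N + 1 => qInt (c 0) - q ^ (c 0 - 1) / qcf (fun j => c (j + 1)) N

/-- `F` is the `q`-deformed real number `[x]_q`. -/
inductive IsQReal : ℝ → Ser → Prop
  /-- If `x = [[c 0, c 1, ...]]` with all `c j ≥ 2`, then `[x]_q` is the `q`-adic limit of the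
  `q`-deformed truncations. -/
  | base (c : ℕ → ℕ) (x : ℝ) (F : Ser) (hc : ∀ j, 2 ≤ c j)
      (hx : Tendsto (cf c) atTop (𝓝 x))
      (hF : ∀ n : ℤ, ∀ᶠ N in atTop, (qcf c N).coeff n = F.coeff n) : IsQReal x F
  /-- The shift rule `[x - 1]_q = q⁻¹ ([x]_q - 1)`. -/
  | shift (x : ℝ) (F : Ser) (h : IsQReal x F) : IsQReal (x - 1) (q⁻¹ * (F - 1))

/-- The radius of convergence of a formal Laurent series (its principal part is finite and does
not matter). -/
noncomputable def radius (F : Ser) : ENNReal :=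
  (FormalMultilinearSeries.ofScalars ℂ (fun n : ℕ => ((F.coeff (n : ℤ) : ℚ) : ℂ))).radius

/-! ### Analytic part -/

/-- The function `f` is the sum of the power series `F` on the disc of radius `r`. -/
def Rep (r : ℝ) (F : PowerSeries ℂ) (f : ℂ → ℂ) : Prop :=
  ∀ z : ℂ, ‖z‖ < r → HasSum (fun n => F.coeff n * z ^ n) (f z)

lemma Rep.congr {r : ℝ} {F : PowerSeries ℂ} {f g : ℂ → ℂ} (h : Rep r F f)
    (hfg : ∀ z : ℂ, ‖z‖ < r → f z = g z) : Rep r F g := by
  intro z hz
  rw [← hfg z hz]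
  exact h z hz

lemma Rep.hasFPower {r : ℝ} (hr : 0 < r) {F : PowerSeries ℂ} {f : ℂ → ℂ} (h : Rep r F f) :
    HasFPowerSeriesOnBall f (FormalMultilinearSeries.ofScalars ℂ (fun n => F.coeff n)) 0
      (ENNReal.ofReal r) := by
  refine ⟨?_, by simpa using hr, ?_⟩
  · refine ENNReal.le_of_forall_nnreal_lt fun s hs => ?_
    have hs' : (s : ℝ) < r := by
      rw [← ENNReal.ofReal_coe_nnreal] at hs
      exact (ENNReal.ofReal_lt_ofReal_iff hr).mp hs
    have h1 := (h (s : ℂ) (by simpa using hs')).summable.norm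
    apply FormalMultilinearSeries.le_radius_of_summable_norm
    refine h1.congr fun n => ?_
    rw [FormalMultilinearSeries.ofScalars_norm, norm_mul, norm_pow]
    simp
  · intro y hy
    have hy' : ‖y‖ < r := by
      rw [Metric.mem_eball, edist_dist, dist_zero_right] at hy
      exact (ENNReal.ofReal_lt_ofReal_iff hr).mp hy
    have := h y hy'
    rw [zero_add]
    simpa [FormalMultilinearSeries.ofScalars_apply_eq, mul_comm] using this

lemma Rep.unique {r : ℝ} (hr : 0 < r) {F G : PowerSeries ℂ} {f : ℂ → ℂ} (h1 : Rep r F f)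
    (h2 : Rep r G f) : F = G := by
  have h := (h1.hasFPower hr).hasFPowerSeriesAt.eq_formalMultilinearSeries
    (h2.hasFPower hr).hasFPowerSeriesAt
  have h' := FormalMultilinearSeries.ofScalars_series_injective ℂ ℂ h
  ext n
  exact congrFun h' n

lemma Rep.diff {r : ℝ} (hr : 0 < r) {F : PowerSeries ℂ} {f : ℂ → ℂ} (h : Rep r F f) :
    DifferentiableOn ℂ f (Metric.ball 0 r) := by
  have := (h.hasFPower hr).differentiableOn
  rwa [Metric.eball_ofReal] at this

lemma rep_of_diff {r : ℝ} {f : ℂ → ℂ} (hf : DifferentiableOn ℂ f (Metric.ball 0 r)) :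
    ∃ F, Rep r F f := by
  refine ⟨PowerSeries.mk fun n => ((n.factorial : ℂ))⁻¹ * iteratedDeriv n f 0, ?_⟩
  intro z hz
  have := Complex.hasSum_taylorSeries_on_ball hf (z := z) (by simpa using hz)
  convert! this using 1
  funext n
  simp only [PowerSeries.coeff_mk, sub_zero, smul_eq_mul]
  ring

lemma Rep.add {r : ℝ} {F G : PowerSeries ℂ} {f g : ℂ → ℂ} (h1 : Rep r F f) (h2 : Rep r G g) :
    Rep r (F + G) (fun z => f z + g z) := by
  intro z hz
  have := (h1 z hz).add (h2 z hz)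
  convert! this using 1
  funext n
  rw [map_add]; ring

lemma Rep.sub {r : ℝ} {F G : PowerSeries ℂ} {f g : ℂ → ℂ} (h1 : Rep r F f) (h2 : Rep r G g) :
    Rep r (F - G) (fun z => f z - g z) := by
  intro z hz
  have := (h1 z hz).sub (h2 z hz)
  convert! this using 1
  funext n
  rw [map_sub]; ring

lemma Rep.X_pow (r : ℝ) (k : ℕ) : Rep r (PowerSeries.X ^ k) (fun z => z ^ k) := by
  intro z hz
  have := hasSum_single (f := fun n => (PowerSeries.coeff n) (PowerSeries.X ^ k : PowerSeries ℂ) * z ^ n) k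
    (fun n hn => by simp [PowerSeries.coeff_X_pow, hn])
  simpa [PowerSeries.coeff_X_pow] using this

lemma Rep.one (r : ℝ) : Rep r 1 (fun _ => 1) := by
  simpa using Rep.X_pow r 0

lemma Rep.geom (r : ℝ) (k : ℕ) : Rep r (∑ i ∈ Finset.range k, PowerSeries.X ^ i)
    (fun z => ∑ i ∈ Finset.range k, z ^ i) := by
  induction k with
  | zero =>
    intro z hz
    simp
  | succ k ih =>
    simp only [Finset.sum_range_succ]
    exact ih.add (Rep.X_pow r k)

lemma Rep.mul {r : ℝ} {F G : PowerSeries ℂ} {f g : ℂ → ℂ} (h1 : Rep r F f) (h2 : Rep r G g) :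
    Rep r (F * G) (fun z => f z * g z) := by
  intro z hz
  have s1 := (h1 z hz).summable.norm
  have s2 := (h2 z hz).summable.norm
  have h3 := summable_norm_sum_mul_antidiagonal_of_summable_norm s1 s2
  have h4 := tsum_mul_tsum_eq_tsum_sum_antidiagonal_of_summable_norm s1 s2
  rw [(h1 z hz).tsum_eq, (h2 z hz).tsum_eq] at h4
  show HasSum _ (f z * g z)
  rw [h4]
  have h5 := h3.of_norm.hasSum
  convert! h5 using 1
  funext n
  rw [PowerSeries.coeff_mul, Finset.sum_mul]
  refine Finset.sum_congr rfl fun p hp => ?_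
  rw [← Finset.HasAntidiagonal.mem_antidiagonal.mp hp, pow_add]
  ring

/-- inverses -/
lemma Rep.inv {r : ℝ} (hr : 0 < r) {F G : PowerSeries ℂ} {f : ℂ → ℂ} (h1 : Rep r F f)
    (hf : ∀ z : ℂ, ‖z‖ < r → f z ≠ 0) (hFG : F * G = 1) : Rep r G (fun z => 1 / f z) := by
  have hd : DifferentiableOn ℂ (fun z => 1 / f z) (Metric.ball 0 r) := by
    refine (differentiableOn_const 1).div (h1.diff hr) ?_
    intro z hz
    exact hf z (by simpa using hz)
  obtain ⟨G', hG'⟩ := rep_of_diff hd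
  have h2 : Rep r (F * G') (fun _ => 1) := by
    refine (h1.mul hG').congr ?_
    intro z hz
    have := hf z hz
    field_simp
  have h3 : F * G' = 1 := h2.unique hr (Rep.one r)
  have h4 : G' = G := by
    have hF : F ≠ 0 := by
      rintro rfl
      simp at hFG
    exact mul_left_cancel₀ hF (h3.trans hFG.symm)
  rw [← h4]
  exact hG'

/-- Cauchy estimates -/
lemma Rep.coeff_le {r : ℝ} {F : PowerSeries ℂ} {f : ℂ → ℂ} (h : Rep r F f) {ρ M : ℝ}
    (hρ : 0 < ρ) (hρr : ρ < r) (hM : ∀ z : ℂ, ‖z‖ = ρ → ‖f z‖ ≤ M) (n : ℕ) :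
    ‖F.coeff n‖ * ρ ^ n ≤ M := by
  have hr : 0 < r := hρ.trans hρr
  have hd : DifferentiableOn ℂ f (Metric.closedBall 0 ρ) :=
    (h.diff hr).mono (Metric.closedBall_subset_ball hρr)
  have hd' : DifferentiableOn ℂ f (Metric.closedBall 0 (⟨ρ, hρ.le⟩ : NNReal)) := hd
  have h1 := hd'.hasFPowerSeriesOnBall (by exact_mod_cast hρ)
  have h2 := (h.hasFPower hr).hasFPowerSeriesAt.eq_formalMultilinearSeries h1.hasFPowerSeriesAt
  have h3 : ‖F.coeff n‖ = ‖cauchyPowerSeries f 0 ρ n‖ := by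
    rw [← FormalMultilinearSeries.ofScalars_norm (E := ℂ) (fun n => F.coeff n) n, h2]
    rfl
  have h4 := norm_cauchyPowerSeries_le f 0 ρ n
  have h5 : (2 * Real.pi)⁻¹ * ∫ θ : ℝ in (0 : ℝ)..2 * Real.pi, ‖f (circleMap 0 ρ θ)‖ ≤ M := by
    have hint : ∫ θ : ℝ in (0 : ℝ)..2 * Real.pi, ‖f (circleMap 0 ρ θ)‖
        ≤ ∫ θ : ℝ in (0 : ℝ)..2 * Real.pi, M := by
      apply intervalIntegral.integral_mono_on (by positivity)
      · apply ContinuousOn.intervalIntegrable
        apply ContinuousOn.norm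
        refine hd.continuousOn.comp (continuous_circleMap 0 ρ).continuousOn ?_
        intro θ _
        exact circleMap_mem_closedBall 0 hρ.le θ
      · exact intervalIntegrable_const
      · intro θ _
        exact hM _ (by simp [abs_of_pos hρ])
    rw [intervalIntegral.integral_const, smul_eq_mul, sub_zero] at hint
    have hpi : (0 : ℝ) < 2 * Real.pi := by positivity
    rw [inv_mul_le_iff₀ hpi]
    exact hint
  rw [h3]
  calc ‖cauchyPowerSeries f 0 ρ n‖ * ρ ^ n
      ≤ ((2 * Real.pi)⁻¹ * ∫ θ : ℝ in (0 : ℝ)..2 * Real.pi, ‖f (circleMap 0 ρ θ)‖) * |ρ|⁻¹ ^ n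
        * ρ ^ n := by gcongr
    _ = (2 * Real.pi)⁻¹ * ∫ θ : ℝ in (0 : ℝ)..2 * Real.pi, ‖f (circleMap 0 ρ θ)‖ := by
        rw [abs_of_pos hρ, mul_assoc, ← mul_pow, inv_mul_cancel₀ hρ.ne', one_pow, mul_one]
    _ ≤ M := h5

/-! ### The truncations as functions -/

/-- The truncated `q`-deformed continued fraction as a function of the complex number `z`. -/
noncomputable def fcf : (ℕ → ℕ) → ℕ → ℂ → ℂ
  | c, 0 => fun z => ∑ i ∈ Finset.range (c 0), z ^ i
  | c, N + 1 => fun z => ∑ i ∈ Finset.range (c 0), z ^ i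
      - z ^ (c 0 - 1) * (1 / fcf (fun j => c (j + 1)) N z)

lemma orbit {s : ℝ} (hs0 : 0 ≤ s) (hs : s + s ^ 2 ≤ 1) {z : ℂ} (hz : ‖z‖ = s ^ 2) {w : ℂ}
    (hw : s * ‖w‖ ≤ 1) (k : ℕ) :
    ‖∑ i ∈ Finset.range (k + 1), z ^ i + z ^ (k + 1) * w - 1‖ ≤ s := by
  induction k with
  | zero =>
    simp only [zero_add, Finset.range_one, Finset.sum_singleton, pow_zero, pow_one]
    rw [add_sub_cancel_left, norm_mul, hz]
    nlinarith
  | succ k ih =>
    have e : ∑ i ∈ Finset.range (k + 1 + 1), z ^ i + z ^ (k + 1 + 1) * w - 1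
        = z * (1 + (∑ i ∈ Finset.range (k + 1), z ^ i + z ^ (k + 1) * w - 1)) := by
      rw [Finset.sum_range_succ' _ (k + 1)]
      have : ∑ i ∈ Finset.range (k + 1), z ^ (i + 1) = z * ∑ i ∈ Finset.range (k + 1), z ^ i := by
        rw [Finset.mul_sum]
        exact Finset.sum_congr rfl fun i _ => by ring
      rw [this]
      ring
    rw [e, norm_mul, hz]
    have h1 : ‖1 + (∑ i ∈ Finset.range (k + 1), z ^ i + z ^ (k + 1) * w - 1)‖ ≤ 1 + s := by
      refine (norm_add_le _ _).trans ?_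
      rw [norm_one]
      linarith
    nlinarith [sq_nonneg s]

lemma back {s : ℝ} (hs0 : 0 ≤ s) (hs : s + s ^ 2 ≤ 1) {v : ℂ} (hv : ‖v - 1‖ ≤ s) :
    s * ‖1 - 1 / v‖ ≤ 1 := by
  have hs1 : s < 1 := by nlinarith
  have h1 : 1 - s ≤ ‖v‖ := by
    have := norm_sub_norm_le (1 : ℂ) (1 - v)
    rw [norm_one, norm_sub_rev 1 v] at this
    have e : (1 : ℂ) - (1 - v) = v := by ring
    rw [e] at this
    linarith
  have hv0 : v ≠ 0 := by
    intro h
    rw [h, norm_zero] at h1
    linarith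
  have e : 1 - 1 / v = (v - 1) / v := by field_simp
  rw [e, norm_div, mul_div_assoc', div_le_one (by linarith)]
  nlinarith

lemma fcf_bound {s : ℝ} (hs0 : 0 ≤ s) (hs : s + s ^ 2 ≤ 1) {z : ℂ} (hz : ‖z‖ = s ^ 2) (N : ℕ) :
    ∀ c : ℕ → ℕ, (∀ j, 2 ≤ c j) → ‖fcf c N z - 1‖ ≤ s := by
  have hs1 : s < 1 := by nlinarith
  induction N with
  | zero =>
    intro c hc
    obtain ⟨k, hk⟩ := Nat.exists_eq_add_of_le (hc 0)
    have := orbit hs0 hs hz (w := 1) (by rw [norm_one]; linarith) k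
    have e : fcf c 0 z = ∑ i ∈ Finset.range (k + 1), z ^ i + z ^ (k + 1) * 1 := by
      simp only [fcf]
      rw [hk, show 2 + k = k + 1 + 1 by ring, Finset.sum_range_succ _ (k + 1), mul_one]
    rw [e]
    exact this
  | succ N ih =>
    intro c hc
    obtain ⟨k, hk⟩ := Nat.exists_eq_add_of_le (hc 0)
    have h1 := ih (fun j => c (j + 1)) (fun j => hc (j + 1))
    have := orbit hs0 hs hz (back hs0 hs h1) k
    have e : fcf c (N + 1) z = ∑ i ∈ Finset.range (k + 1), z ^ i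
        + z ^ (k + 1) * (1 - 1 / fcf (fun j => c (j + 1)) N z) := by
      simp only [fcf]
      rw [hk, show 2 + k = k + 1 + 1 by ring, Finset.sum_range_succ _ (k + 1)]
      simp only [Nat.add_sub_cancel]
      ring
    rw [e]
    exact this

/-- The radius `(3 - √5) / 2`. -/
noncomputable def R0 : ℝ := (3 - √5) / 2

lemma R0_pos : 0 < R0 := by
  unfold R0
  have : √5 < 3 := by
    rw [Real.sqrt_lt' (by norm_num)]
    norm_num
  linarith

lemma exists_s {z : ℂ} (hz : ‖z‖ < R0) : ∃ s : ℝ, 0 ≤ s ∧ s + s ^ 2 ≤ 1 ∧ ‖z‖ = s ^ 2 := by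
  refine ⟨√‖z‖, Real.sqrt_nonneg _, ?_, (Real.sq_sqrt (norm_nonneg z)).symm⟩
  rw [Real.sq_sqrt (norm_nonneg z)]
  have h5 : √5 ^ 2 = 5 := Real.sq_sqrt (by norm_num)
  have h5' : 0 ≤ √5 := Real.sqrt_nonneg 5
  have h52 : 2 < √5 := by
    rw [Real.lt_sqrt (by norm_num)]
    norm_num
  have h1 : √‖z‖ ≤ (√5 - 1) / 2 := by
    rw [Real.sqrt_le_left (by linarith)]
    unfold R0 at hz
    nlinarith
  unfold R0 at hz
  linarith

lemma fcf_bound' {z : ℂ} (hz : ‖z‖ < R0) (N : ℕ) (c : ℕ → ℕ) (hc : ∀ j, 2 ≤ c j) :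
    ‖fcf c N z - 1‖ < 1 := by
  obtain ⟨s, h0, h1, h2⟩ := exists_s hz
  have := fcf_bound h0 h1 h2 N c hc
  nlinarith

lemma fcf_ne {z : ℂ} (hz : ‖z‖ < R0) (N : ℕ) (c : ℕ → ℕ) (hc : ∀ j, 2 ≤ c j) :
    fcf c N z ≠ 0 := by
  intro h
  have := fcf_bound' hz N c hc
  rw [h] at this
  simp at this

lemma q_eq : q = ((PowerSeries.X : PowerSeries ℚ) : Ser) := by
  unfold q
  rw [PowerSeries.coe_X]

lemma q_pow_eq (k : ℕ) : q ^ k = (((PowerSeries.X : PowerSeries ℚ) ^ k : PowerSeries ℚ) : Ser) := by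
  rw [q_eq, PowerSeries.coe_pow]

lemma qInt_eq (n : ℕ) :
    qInt n = ((∑ i ∈ Finset.range n, (PowerSeries.X : PowerSeries ℚ) ^ i : PowerSeries ℚ) : Ser) := by
  unfold qInt
  rw [map_sum]
  exact Finset.sum_congr rfl fun i _ => q_pow_eq i

lemma qcf_rep (N : ℕ) : ∀ c : ℕ → ℕ, (∀ j, 2 ≤ c j) → ∃ P : PowerSeries ℚ,
    qcf c N = (P : Ser) ∧ Rep R0 (P.map (algebraMap ℚ ℂ)) (fcf c N) := by
  induction N with
  | zero =>
    intro c hc
    refine ⟨_, qInt_eq (c 0), ?_⟩
    have := Rep.geom R0 (c 0)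
    rw [map_sum]
    simpa [fcf] using this
  | succ N ih =>
    intro c hc
    obtain ⟨P, hP, hrep⟩ := ih (fun j => c (j + 1)) (fun j => hc (j + 1))
    have h0 : P.constantCoeff ≠ 0 := by
      intro h0
      have h1 := hrep 0 (by simpa using R0_pos)
      have h2 := hasSum_single (f := fun n => (PowerSeries.coeff n) (P.map (algebraMap ℚ ℂ)) *
        (0 : ℂ) ^ n) 0 (fun n hn => by simp [hn])
      have h3 := h1.unique h2
      simp only [PowerSeries.coeff_map, pow_zero, mul_one] at h3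
      rw [PowerSeries.coeff_zero_eq_constantCoeff_apply, h0, map_zero] at h3
      exact fcf_ne (by simpa using R0_pos) N _ (fun j => hc (j + 1)) h3
    have h1 : P * P⁻¹ = 1 := PowerSeries.mul_inv_cancel P h0
    have h2 : P.map (algebraMap ℚ ℂ) * P⁻¹.map (algebraMap ℚ ℂ) = 1 := by
      rw [← map_mul, h1, map_one]
    have hinv := hrep.inv R0_pos (fun z hz => fcf_ne hz N _ (fun j => hc (j + 1))) h2
    refine ⟨∑ i ∈ Finset.range (c 0), (PowerSeries.X : PowerSeries ℚ) ^ i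
      - PowerSeries.X ^ (c 0 - 1) * P⁻¹, ?_, ?_⟩
    · simp only [qcf]
      rw [map_sub, map_mul, qInt_eq, q_pow_eq, hP, div_eq_mul_inv]
      congr 2
      refine inv_eq_of_mul_eq_one_right ?_
      rw [← map_mul, h1, map_one]
    · have := (Rep.geom R0 (c 0)).sub ((Rep.X_pow R0 (c 0 - 1)).mul hinv)
      rw [map_sub, map_mul, map_sum]
      simpa [fcf] using this

/-- The coefficients of the truncations are bounded, uniformly, by those of a geometric series. -/
lemma qcf_coeff_le {ρ : ℝ} (hρ : 0 < ρ) (hρr : ρ < R0) (N : ℕ) (c : ℕ → ℕ) (hc : ∀ j, 2 ≤ c j)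
    (n : ℕ) : ‖(((qcf c N).coeff (n : ℤ) : ℚ) : ℂ)‖ * ρ ^ n ≤ 2 := by
  obtain ⟨P, hP, hrep⟩ := qcf_rep N c hc
  have h := hrep.coeff_le hρ hρr (M := 2) (fun z hz => by
    have h1 := fcf_bound' (by rw [hz]; exact hρr : ‖z‖ < R0) N c hc
    have h2 : ‖fcf c N z‖ ≤ ‖fcf c N z - 1‖ + ‖(1 : ℂ)‖ := by
      have := norm_add_le (fcf c N z - 1) 1
      rwa [sub_add_cancel] at this
    rw [norm_one] at h2
    linarith) n
  rw [hP, LaurentSeries.coeff_coe_powerSeries]
  simpa using h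

lemma IsQReal.bdd {x : ℝ} {F : Ser} (h : IsQReal x F) {ρ : ℝ} (hρ : 0 < ρ) (hρr : ρ < R0) :
    ∃ C : ℝ, ∀ n : ℕ, ‖((F.coeff (n : ℤ) : ℚ) : ℂ)‖ * ρ ^ n ≤ C := by
  induction h with
  | base c x F hc hx hF =>
    refine ⟨2, fun n => ?_⟩
    obtain ⟨N, hN⟩ := (hF n).exists
    rw [← hN]
    exact qcf_coeff_le hρ hρr N c hc n
  | shift x F h ih =>
    obtain ⟨C, hC⟩ := ih
    refine ⟨C / ρ, fun n => ?_⟩
    have e : (q⁻¹ * (F - 1)).coeff (n : ℤ) = F.coeff ((n + 1 : ℕ) : ℤ) := by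
      unfold q
      rw [HahnSeries.inv_single, inv_one]
      have := HahnSeries.coeff_single_mul_add (r := (1 : ℚ)) (x := F - 1) (a := ((n : ℤ) + 1))
        (b := -1)
      rw [one_mul] at this
      rw [show ((n : ℤ)) = (n : ℤ) + 1 + -1 by ring, this, HahnSeries.coeff_sub,
        HahnSeries.coeff_one, if_neg (by omega), sub_zero]
      congr 1
    rw [e, le_div_iff₀ hρ, mul_assoc, ← pow_succ]
    exact hC (n + 1)

lemma IsQReal.radius_ge {x : ℝ} {F : Ser} (h : IsQReal x F) :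
    ENNReal.ofReal ((3 - √5) / 2) ≤ radius F := by
  refine ENNReal.le_of_forall_nnreal_lt fun s hs => ?_
  rcases eq_or_ne s 0 with rfl | hs0
  · simp
  have hpos : (0 : ℝ) < s := by
    have := s.2
    exact lt_of_le_of_ne s.2 (fun h => hs0 (by ext; simpa using h.symm))
  have hs' : (s : ℝ) < R0 := by
    rw [← ENNReal.ofReal_coe_nnreal] at hs
    exact (ENNReal.ofReal_lt_ofReal_iff R0_pos).mp hs
  obtain ⟨C, hC⟩ := h.bdd hpos hs'
  refine FormalMultilinearSeries.le_radius_of_bound _ C fun n => ?_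
  rw [FormalMultilinearSeries.ofScalars_norm]
  exact hC n

/-! ### Existence and uniqueness of the `q`-deformed real numbers -/

/-- the truncations as power series -/
noncomputable def pcf : (ℕ → ℕ) → ℕ → PowerSeries ℚ
  | c, 0 => ∑ i ∈ Finset.range (c 0), PowerSeries.X ^ i
  | c, N + 1 => ∑ i ∈ Finset.range (c 0), PowerSeries.X ^ i
      - PowerSeries.X ^ (c 0 - 1) * (pcf (fun j => c (j + 1)) N)⁻¹

lemma pcf_spec (N : ℕ) : ∀ c : ℕ → ℕ, (∀ j, 2 ≤ c j) →
    qcf c N = (pcf c N : Ser) ∧ (pcf c N).constantCoeff = 1 := by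
  have hgeom : ∀ n, 2 ≤ n →
      (∑ i ∈ Finset.range n, (PowerSeries.X : PowerSeries ℚ) ^ i).constantCoeff = 1 := by
    intro n hn
    obtain ⟨k, rfl⟩ := Nat.exists_eq_add_of_le hn
    rw [show 2 + k = (1 + k) + 1 by ring, Finset.sum_range_succ', map_add, map_sum]
    simp
  induction N with
  | zero =>
    intro c hc
    exact ⟨qInt_eq (c 0), hgeom _ (hc 0)⟩
  | succ N ih =>
    intro c hc
    obtain ⟨h1, h2⟩ := ih (fun j => c (j + 1)) (fun j => hc (j + 1))
    have h3 := PowerSeries.mul_inv_cancel (pcf (fun j => c (j + 1)) N) (by rw [h2]; exact one_ne_zero)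
    constructor
    · simp only [qcf, pcf]
      rw [map_sub, map_mul, qInt_eq, q_pow_eq, h1, div_eq_mul_inv]
      congr 2
      refine inv_eq_of_mul_eq_one_right ?_
      rw [← map_mul, h3, map_one]
    · simp only [pcf]
      obtain ⟨k, hk⟩ := Nat.exists_eq_add_of_le (hc 0)
      rw [map_sub, hgeom _ (hc 0), map_mul, map_pow, PowerSeries.constantCoeff_X, hk,
        show 2 + k - 1 = k + 1 by omega, pow_succ, mul_zero, zero_mul, sub_zero]

lemma pcf_agree (N : ℕ) : ∀ (M : ℕ) (c : ℕ → ℕ), (∀ j, 2 ≤ c j) → N ≤ M →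
    (PowerSeries.X : PowerSeries ℚ) ^ (N + 1) ∣ pcf c N - pcf c M := by
  have hX : ∀ c : ℕ → ℕ, (∀ j, 2 ≤ c j) → (PowerSeries.X : PowerSeries ℚ) ∣
      PowerSeries.X ^ (c 0 - 1) := by
    intro c hc
    refine dvd_pow_self _ ?_
    have := hc 0
    omega
  induction N with
  | zero =>
    intro M c hc _
    cases M with
    | zero => simp
    | succ M =>
      simp only [pcf, sub_sub_cancel, zero_add, pow_one]
      exact (hX c hc).mul_right _
  | succ N ih =>
    intro M c hc hM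
    obtain ⟨M, rfl⟩ : ∃ M', M = M' + 1 := ⟨M - 1, by omega⟩
    have h := ih M (fun j => c (j + 1)) (fun j => hc (j + 1)) (by omega)
    have h1 := PowerSeries.mul_inv_cancel (pcf (fun j => c (j + 1)) N)
      (by rw [(pcf_spec N _ (fun j => hc (j + 1))).2]; exact one_ne_zero)
    have h2 := PowerSeries.mul_inv_cancel (pcf (fun j => c (j + 1)) M)
      (by rw [(pcf_spec M _ (fun j => hc (j + 1))).2]; exact one_ne_zero)
    simp only [pcf]
    set A := pcf (fun j => c (j + 1)) N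
    set B := pcf (fun j => c (j + 1)) M
    have e : (∑ i ∈ Finset.range (c 0), PowerSeries.X ^ i - PowerSeries.X ^ (c 0 - 1) * A⁻¹)
        - (∑ i ∈ Finset.range (c 0), PowerSeries.X ^ i - PowerSeries.X ^ (c 0 - 1) * B⁻¹)
        = (A - B) * (PowerSeries.X ^ (c 0 - 1)) * (A⁻¹ * B⁻¹) := by
      linear_combination (PowerSeries.X ^ (c 0 - 1) * A⁻¹) * h2
        - (PowerSeries.X ^ (c 0 - 1) * B⁻¹) * h1
    rw [e, pow_succ]
    exact (mul_dvd_mul h (hX c hc)).mul_right _

lemma pcf_coeff {N M n : ℕ} {c : ℕ → ℕ} (hc : ∀ j, 2 ≤ c j) (h1 : n ≤ N) (h2 : n ≤ M) :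
    (pcf c N).coeff n = (pcf c M).coeff n := by
  have key : ∀ N M, N ≤ M → n ≤ N → (pcf c N).coeff n = (pcf c M).coeff n := by
    intro N M hNM hn
    have := pcf_agree N M c hc hNM
    rw [PowerSeries.X_pow_dvd_iff] at this
    have := this n (by omega)
    rwa [map_sub, sub_eq_zero] at this
  rcases le_total N M with h | h
  · exact key N M h h1
  · exact (key M N h h2).symm

/-- the `q`-adic limit of the truncations -/
noncomputable def lim (c : ℕ → ℕ) : PowerSeries ℚ := PowerSeries.mk fun n => (pcf c n).coeff n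

lemma lim_coeff {N n : ℕ} {c : ℕ → ℕ} (hc : ∀ j, 2 ≤ c j) (h1 : n ≤ N) :
    (lim c).coeff n = (pcf c N).coeff n := by
  unfold lim
  rw [PowerSeries.coeff_mk]
  exact pcf_coeff hc le_rfl h1

lemma lim_spec {c : ℕ → ℕ} (hc : ∀ j, 2 ≤ c j) (n : ℤ) :
    ∀ᶠ N in atTop, (qcf c N).coeff n = (lim c : Ser).coeff n := by
  filter_upwards [eventually_ge_atTop n.natAbs] with N hN
  rw [(pcf_spec N c hc).1, PowerSeries.coeff_coe, PowerSeries.coeff_coe]
  split_ifs with h
  · rfl
  · exact (lim_coeff hc hN).symm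

lemma cf_bounds (N : ℕ) : ∀ c : ℕ → ℕ, (∀ j, 2 ≤ c j) → 1 ≤ cf c N ∧ cf c N ≤ c 0 := by
  induction N with
  | zero =>
    intro c hc
    have : (2 : ℝ) ≤ c 0 := by exact_mod_cast hc 0
    simp only [cf]
    exact ⟨by linarith, le_rfl⟩
  | succ N ih =>
    intro c hc
    have : (2 : ℝ) ≤ c 0 := by exact_mod_cast hc 0
    obtain ⟨h1, h2⟩ := ih (fun j => c (j + 1)) (fun j => hc (j + 1))
    simp only [cf]
    have h3 : 1 / cf (fun j => c (j + 1)) N ≤ 1 := by
      rw [div_le_one (by linarith)]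
      exact h1
    have h4 : 0 ≤ 1 / cf (fun j => c (j + 1)) N := by positivity
    exact ⟨by linarith, by linarith⟩

/-- Gauss-type map of the negative continued fraction -/
noncomputable def S (x : ℝ) : ℝ := 1 / ((⌊x⌋₊ : ℝ) + 1 - x)

/-- digits of the negative continued fraction of `x ≥ 1` -/
noncomputable def dig (x : ℝ) (j : ℕ) : ℕ := ⌊S^[j] x⌋₊ + 1

lemma S_ge {x : ℝ} (hx : 1 ≤ x) : 1 ≤ S x := by
  unfold S
  have h1 := Nat.floor_le (by linarith : 0 ≤ x)
  have h2 := Nat.lt_floor_add_one x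
  rw [le_div_iff₀ (by linarith)]
  linarith

lemma S_iter_ge {x : ℝ} (hx : 1 ≤ x) (j : ℕ) : 1 ≤ S^[j] x := by
  induction j with
  | zero => exact hx
  | succ j ih =>
    rw [Function.iterate_succ_apply']
    exact S_ge ih

lemma dig_ge {x : ℝ} (hx : 1 ≤ x) (j : ℕ) : 2 ≤ dig x j := by
  unfold dig
  have := Nat.le_floor (show ((1 : ℕ) : ℝ) ≤ S^[j] x by exact_mod_cast S_iter_ge hx j)
  omega

lemma dig_shift (x : ℝ) : (fun j => dig x (j + 1)) = dig (S x) := by
  funext j
  unfold dig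
  rw [Function.iterate_succ_apply]

lemma cf_dig (N : ℕ) : ∀ x : ℝ, 1 ≤ x → 0 ≤ cf (dig x) N - x ∧ cf (dig x) N - x ≤ 1 / (N + 1) := by
  have hd0 : ∀ x : ℝ, (dig x 0 : ℝ) = (⌊x⌋₊ : ℝ) + 1 := by
    intro x
    unfold dig
    simp
  induction N with
  | zero =>
    intro x hx
    simp only [cf, hd0]
    have h1 := Nat.floor_le (by linarith : 0 ≤ x)
    have h2 := Nat.lt_floor_add_one x
    norm_num
    constructor <;> linarith
  | succ N ih =>
    intro x hx
    simp only [cf, hd0]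
    rw [dig_shift]
    obtain ⟨h1, h2⟩ := ih (S x) (S_ge hx)
    have hS := S_ge hx
    have hfl := Nat.lt_floor_add_one x
    have ex : ((⌊x⌋₊ : ℝ) + 1 - x) = 1 / S x := by
      unfold S
      rw [one_div_one_div]
    set a := cf (dig (S x)) N
    set y := S x
    have e : (⌊x⌋₊ : ℝ) + 1 - 1 / a - x = 1 / y - 1 / a := by
      rw [← ex]; ring
    rw [e]
    have hy : 0 < y := by linarith
    have ha : 0 < a := by linarith
    have hN : (0 : ℝ) < (N : ℝ) + 1 := by positivity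
    constructor
    · rw [sub_nonneg]
      exact one_div_le_one_div_of_le hy (by linarith)
    · push_cast
      have hb : a ≤ y + 1 / (N + 1) := by linarith
      have h3 : 1 / y - 1 / a ≤ 1 / y - 1 / (y + 1 / (N + 1)) := by
        have := one_div_le_one_div_of_le ha hb
        linarith
      refine h3.trans ?_
      have e2 : 1 / y - 1 / (y + 1 / (N + 1)) = 1 / (y * (y * (N + 1) + 1)) := by
        field_simp
        ring
      rw [e2]
      apply one_div_le_one_div_of_le (by positivity)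
      nlinarith [mul_nonneg (sub_nonneg.mpr hS) hN.le, mul_nonneg (sub_nonneg.mpr hS) hy.le,
        mul_nonneg (mul_nonneg (sub_nonneg.mpr hS) hN.le) hy.le]

lemma cf_dig_tendsto {x : ℝ} (hx : 1 ≤ x) : Tendsto (cf (dig x)) atTop (𝓝 x) := by
  have h0 : Tendsto (fun N : ℕ => 1 / ((N : ℝ) + 1)) atTop (𝓝 0) :=
    tendsto_one_div_add_atTop_nhds_zero_nat
  have h1 : Tendsto (fun N : ℕ => cf (dig x) N - x) atTop (𝓝 0) :=
    squeeze_zero (fun N => (cf_dig N x hx).1) (fun N => (cf_dig N x hx).2) h0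
  have := h1.add_const x
  simpa using this

lemma cf_limit {c : ℕ → ℕ} (hc : ∀ j, 2 ≤ c j) {x : ℝ} (hx : Tendsto (cf c) atTop (𝓝 x)) :
    1 ≤ x ∧ c 0 = ⌊x⌋₊ + 1 ∧ Tendsto (cf (fun j => c (j + 1))) atTop (𝓝 (S x)) := by
  have hx1 : 1 ≤ x := ge_of_tendsto' hx fun N => (cf_bounds N c hc).1
  have h1 : Tendsto (fun N => cf c (N + 1)) atTop (𝓝 x) := hx.comp (tendsto_add_atTop_nat 1)
  have h2 : Tendsto (fun N => 1 / cf (fun j => c (j + 1)) N) atTop (𝓝 ((c 0 : ℝ) - x)) := by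
    have := (tendsto_const_nhds (x := (c 0 : ℝ))).sub h1
    refine this.congr fun N => ?_
    simp only [cf]
    ring
  have hb : ∀ N, (1 : ℝ) / c 1 ≤ 1 / cf (fun j => c (j + 1)) N
      ∧ 1 / cf (fun j => c (j + 1)) N ≤ 1 := by
    intro N
    obtain ⟨h3, h4⟩ := cf_bounds N (fun j => c (j + 1)) (fun j => hc (j + 1))
    exact ⟨one_div_le_one_div_of_le (by linarith) (by simpa using h4), by
      rw [div_le_one (by linarith)]; exact h3⟩
  have hl : (1 : ℝ) / c 1 ≤ (c 0 : ℝ) - x := ge_of_tendsto' h2 fun N => (hb N).1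
  have hu : (c 0 : ℝ) - x ≤ 1 := le_of_tendsto' h2 fun N => (hb N).2
  have hc1 : (0 : ℝ) < 1 / c 1 := by
    have : (2 : ℝ) ≤ c 1 := by exact_mod_cast hc 1
    positivity
  have hfl : c 0 = ⌊x⌋₊ + 1 := by
    have h5 : ⌊x⌋₊ = c 0 - 1 := by
      rw [Nat.floor_eq_iff (by linarith)]
      have h6 : ((c 0 - 1 : ℕ) : ℝ) = (c 0 : ℝ) - 1 := by
        have := hc 0
        push_cast [Nat.cast_sub (by omega : 1 ≤ c 0)]
        ring
      rw [h6]
      constructor <;> linarith
    have := hc 0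
    omega
  refine ⟨hx1, hfl, ?_⟩
  have h7 : Tendsto (fun N => (1 / cf (fun j => c (j + 1)) N)⁻¹) atTop (𝓝 ((c 0 : ℝ) - x)⁻¹) :=
    h2.inv₀ (by linarith)
  have e : S x = ((c 0 : ℝ) - x)⁻¹ := by
    unfold S
    rw [hfl]
    push_cast
    rw [one_div]
  rw [e]
  refine h7.congr fun N => ?_
  rw [one_div, inv_inv]

lemma cf_unique {c : ℕ → ℕ} (hc : ∀ j, 2 ≤ c j) {x : ℝ} (hx : Tendsto (cf c) atTop (𝓝 x)) :
    c = dig x := by
  have key : ∀ j : ℕ, Tendsto (cf (fun i => c (i + j))) atTop (𝓝 (S^[j] x)) := by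
    intro j
    induction j with
    | zero => simpa using hx
    | succ j ih =>
      have := (cf_limit (fun i => hc (i + j)) ih).2.2
      rw [Function.iterate_succ_apply']
      convert this using 3
      congr 1
      omega
  funext j
  have := (cf_limit (fun i => hc (i + j)) (key j)).2.1
  simpa [dig] using this

lemma q_ne : q ≠ 0 := by
  unfold q
  simp

lemma lim_succ {x : ℝ} (hx : 1 ≤ x) :
    (lim (dig (x + 1)) : Ser) = 1 + q * (lim (dig x) : Ser) := by
  have hd0 : dig (x + 1) 0 = dig x 0 + 1 := by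
    unfold dig
    simp only [Function.iterate_zero, id_eq]
    rw [Nat.floor_add_one (by linarith)]
  have hS : S (x + 1) = S x := by
    unfold S
    rw [Nat.floor_add_one (by linarith)]
    push_cast
    congr 1
    ring
  have hx' : 1 ≤ x + 1 := by linarith
  have hp : ∀ N, pcf (dig (x + 1)) N = 1 + PowerSeries.X * pcf (dig x) N := by
    intro N
    have hg : ∀ n, ∑ i ∈ Finset.range (n + 1), (PowerSeries.X : PowerSeries ℚ) ^ i
        = 1 + PowerSeries.X * ∑ i ∈ Finset.range n, PowerSeries.X ^ i := by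
      intro n
      rw [Finset.sum_range_succ', Finset.mul_sum, pow_zero, add_comm]
      congr 1
      exact Finset.sum_congr rfl fun i _ => by ring
    cases N with
    | zero => simp only [pcf]; rw [hd0, hg]
    | succ N =>
      simp only [pcf]
      rw [dig_shift, dig_shift, hS, hd0, hg]
      have h2 := dig_ge hx 0
      obtain ⟨k, hk⟩ := Nat.exists_eq_add_of_le h2
      rw [hk, show 2 + k + 1 - 1 = (k + 1) + 1 by omega, show 2 + k - 1 = k + 1 by omega,
        pow_succ _ (k + 1)]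
      ring
  have h : lim (dig (x + 1)) = 1 + PowerSeries.X * lim (dig x) := by
    ext n
    rw [lim_coeff (dig_ge hx') (le_refl n), hp, map_add, map_add]
    congr 1
    cases n with
    | zero => simp
    | succ n =>
      rw [PowerSeries.coeff_succ_X_mul, PowerSeries.coeff_succ_X_mul,
        lim_coeff (dig_ge hx) (Nat.le_succ n)]
  rw [h, map_add, map_mul, map_one, q_eq]

lemma lim_add {x : ℝ} (hx : 1 ≤ x) (k : ℕ) :
    (lim (dig (x + k)) : Ser) = qInt k + q ^ k * (lim (dig x) : Ser) := by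
  induction k with
  | zero => simp [qInt]
  | succ k ih =>
    have : x + ((k + 1 : ℕ) : ℝ) = (x + k) + 1 := by push_cast; ring
    have hk : 1 ≤ x + k := by
      have : (0 : ℝ) ≤ k := by positivity
      linarith
    rw [this, lim_succ hk, ih]
    have hq : qInt (k + 1) = 1 + q * qInt k := by
      unfold qInt
      rw [Finset.sum_range_succ', Finset.mul_sum, pow_zero, add_comm]
      congr 1
      exact Finset.sum_congr rfl fun i _ => by ring
    rw [hq]
    ring

/-- the `q`-deformed real number as a function -/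
noncomputable def Q (x : ℝ) : Ser :=
  (q ^ (1 - ⌊x⌋).toNat)⁻¹ * ((lim (dig (x + (1 - ⌊x⌋).toNat)) : Ser) - qInt (1 - ⌊x⌋).toNat)

lemma Q_aux {x : ℝ} {k d : ℕ} (hk : 1 ≤ x + k) :
    (q ^ (k + d))⁻¹ * ((lim (dig (x + (k + d : ℕ))) : Ser) - qInt (k + d))
      = (q ^ k)⁻¹ * ((lim (dig (x + k)) : Ser) - qInt k) := by
  have e1 : x + ((k + d : ℕ) : ℝ) = (x + k) + d := by push_cast; ring
  rw [e1, lim_add hk]
  have e2 : qInt (k + d) = qInt d + q ^ d * qInt k := by
    unfold qInt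
    rw [add_comm k d, Finset.sum_range_add, Finset.mul_sum]
    congr 1
    exact Finset.sum_congr rfl fun i _ => by rw [pow_add]
  rw [e2, pow_add]
  have hq := pow_ne_zero k q_ne
  have hq' := pow_ne_zero d q_ne
  field_simp
  ring

lemma Q_eq {x : ℝ} {k : ℕ} (hk : 1 ≤ x + k) :
    Q x = (q ^ k)⁻¹ * ((lim (dig (x + k)) : Ser) - qInt k) := by
  unfold Q
  set k0 := (1 - ⌊x⌋).toNat with hk0
  have h0 : 1 ≤ x + k0 := by
    have h1 : (1 - ⌊x⌋ : ℤ) ≤ k0 := Int.self_le_toNat _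
    have h2 : (1 : ℝ) - ⌊x⌋ ≤ k0 := by exact_mod_cast h1
    have h3 := Int.floor_le x
    linarith
  rcases le_total k k0 with h | h
  · obtain ⟨d, hd⟩ := Nat.exists_eq_add_of_le h
    rw [hd]
    exact Q_aux hk
  · obtain ⟨d, hd⟩ := Nat.exists_eq_add_of_le h
    rw [hd]
    exact (Q_aux h0).symm

lemma exists_k (x : ℝ) : ∃ k : ℕ, 1 ≤ x + k := by
  obtain ⟨k, hk⟩ := exists_nat_ge (1 - x)
  exact ⟨k, by linarith⟩

lemma Q_sub_one (x : ℝ) : Q (x - 1) = q⁻¹ * (Q x - 1) := by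
  obtain ⟨k, hk⟩ := exists_k x
  have hk' : 1 ≤ (x - 1) + ((k + 1 : ℕ) : ℝ) := by push_cast; linarith
  rw [Q_eq hk, Q_eq hk']
  have e1 : (x - 1) + ((k + 1 : ℕ) : ℝ) = x + k := by push_cast; ring
  have e2 : qInt (k + 1) = qInt k + q ^ k := by
    unfold qInt
    rw [Finset.sum_range_succ]
  rw [e1, e2, pow_succ]
  have hq := pow_ne_zero k q_ne
  have hq' := q_ne
  field_simp
  ring

lemma Q_base {x : ℝ} (hx : 1 ≤ x) : Q x = (lim (dig x) : Ser) := by
  have := Q_eq (x := x) (k := 0) (by simpa using hx)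
  rw [this]
  simp [qInt]

lemma isQReal_Q (x : ℝ) : IsQReal x (Q x) := by
  obtain ⟨k, hk⟩ := exists_k x
  induction k generalizing x with
  | zero =>
    have hx : 1 ≤ x := by simpa using hk
    rw [Q_base hx]
    exact IsQReal.base (dig x) x _ (dig_ge hx) (cf_dig_tendsto hx) (lim_spec (dig_ge hx))
  | succ k ih =>
    have h := ih (x + 1) (by push_cast at hk; linarith)
    have h2 := IsQReal.shift _ _ h
    rw [← Q_sub_one, add_sub_cancel_right] at h2
    exact h2

lemma IsQReal.eq_Q {x : ℝ} {F : Ser} (h : IsQReal x F) : F = Q x := by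
  induction h with
  | base c x F hc hx hF =>
    obtain ⟨hx1, -, -⟩ := cf_limit hc hx
    rw [Q_base hx1, ← cf_unique hc hx]
    ext n
    obtain ⟨N, hN1, hN2⟩ := ((hF n).and (lim_spec hc n)).exists
    rw [← hN1, hN2]
  | shift x F h ih => rw [ih, Q_sub_one]

/-- Every real number `x` has exactly one `q`-deformation `[x]_q`, and the radius of convergence
of the series `[x]_q` is at least `(3 - √5) / 2`. -/
theorem result : ∀ x : ℝ, (∃! F : Ser, IsQReal x F) ∧
    ∀ F : Ser, IsQReal x F → ENNReal.ofReal ((3 - √5) / 2) ≤ radius F :=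
  fun x => ⟨⟨Q x, isQReal_Q x, fun _ hF => hF.eq_Q⟩, fun _ hF => hF.radius_ge⟩

end Pool.Agent.Results.MP_b13893_an.RadiusBound
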